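import Mathlib
import Pool.Agent.TH344.JG.Main
import Pool.Agent.TH344.JG.MW

/-!
# Moments of the 2-Selmer groups of the Jacobians of the curves `y² = ∏ (x - a_i)`, `a_i ∈ ℤ`

Let `g ≥ 1`, let `a_0, ..., a_(2g)` be distinct integers, and let `J` be the Jacobian of the curve
`X : y² = ∏ (x - a_i)` of genus `g` over `ℚ`. We order the tuples `(a_i)` by `max |a_i|`. For
`2 ^ k ≤ 4 g` the `k`-th moment of the orders of the 2-Selmer groups of `J`, over all the tuples of
distinct integers, is bounded. So the proportion of the tuples with `#Ш(J)[2] ≥ 2 ^ r` is at most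
`C / 2 ^ (k r)`.

The descent map. Every class of divisors of degree zero on `X` over an infinite field `K` contains a
divisor `D_(u,v) = ∑ (x_j, v (x_j)) - deg u · ∞`, `x_j` the zeros of the monic polynomial `u`, where
`u` divides `∏ (x - a_i) - v²` and `u (a_i) ≠ 0` for all `i` (Mumford representation). The map
`J(K) / 2 J(K) → (K^* / K^*²)^(2g+1)` which sends this class to the family of the classes of
`(-1) ^ deg u * u (a_i)` is injective, and it is induced by the isomorphism of `J[2]` with the group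
of the families of signs with product one, indexed by the `a_i`. So the 2-Selmer group of `J` is the
group of the families of classes in `ℚ^* / ℚ^*²`, that are in the image over `ℝ` and over `ℚ_p` for
all primes `p`. The classes of `ℚ^* / ℚ^*²` are represented by squarefree integers.
-/

namespace Pool.Agent.Results.MP_a43263_nt.JacobianMoments

open Polynomial Filter Topology

/-- The family of the classes of the integers `d i` in `K^* / K^*²` is in the image of the
Jacobian of `y² = ∏ (x - a i)` over `K`: there are a monic polynomial `u` and a polynomial `v` with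
`u ∣ ∏ (x - a i) - v²`, such that `u (a i) ≠ 0` and `(-1) ^ deg u * u (a i) * d i` is a square for
all `i`. -/
def Image (K : Type) [Field K] {n : ℕ} (a d : Fin n → ℤ) : Prop :=
  ∃ u v : K[X], u.Monic ∧ u ∣ (∏ i, (X - C ((a i : ℤ) : K))) - v ^ 2 ∧
    ∀ i, u.eval ((a i : ℤ) : K) ≠ 0 ∧
      IsSquare ((-1) ^ u.natDegree * u.eval ((a i : ℤ) : K) * ((d i : ℤ) : K))

/-- The image of the Mordell-Weil group `J(ℚ)`, as a set of families of squarefree integers. It has
as many elements as `J(ℚ) / 2 J(ℚ)`. -/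
def MW {n : ℕ} (a : Fin n → ℤ) : Set (Fin n → ℤ) := {d | (∀ i, Squarefree (d i)) ∧ Image ℚ a d}

/-- The 2-Selmer group of the Jacobian `J` of `y² = ∏ (x - a i)`, as a set of families of
squarefree integers. The quotient of this group by `MW a` is `Ш(J)[2]`. -/
def Sel2 {n : ℕ} (a : Fin n → ℤ) : Set (Fin n → ℤ) :=
  {d | (∀ i, Squarefree (d i)) ∧ Image ℝ a d ∧ ∀ (p : ℕ) [Fact p.Prime], Image ℚ_[p] a d}

/-- the tuples with `|a i| ≤ N` -/
def Box (n N : ℕ) : Set (Fin n → ℤ) := {a | ∀ i, |a i| ≤ N}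

/-- the tuples of distinct integers with `|a i| ≤ N` -/
def Dist (n N : ℕ) : Set (Fin n → ℤ) := {a | a ∈ Box n N ∧ Function.Injective a}

lemma Box_eq (n N : ℕ) : Box n N = (Pool.Agent.TH344.JG.BoxJ n N : Set (Fin n → ℤ)) := by
  ext a
  rw [Finset.mem_coe, Pool.Agent.TH344.JG.mem_BoxJ]
  unfold Box
  rw [Set.mem_ofPred_eq]
  refine forall_congr' fun i => ?_
  rw [Int.abs_eq_natAbs]
  exact Nat.cast_le

open scoped Classical in
lemma Dist_eq (n N : ℕ) : Dist n N =
    (((Pool.Agent.TH344.JG.BoxJ n N).filter (fun a => Function.Injective a) :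
      Finset (Fin n → ℤ)) : Set (Fin n → ℤ)) := by
  unfold Dist
  rw [Box_eq]
  ext a
  simp

/-- **Theorem.** Let `g ≥ 1` and `2 ^ k ≤ 4 g`. For every tuple `a` of `2 g + 1` distinct integers
the 2-Selmer group `Sel2 a` of the Jacobian `J` of `y² = ∏ (x - a i)` is finite and contains the
(nonempty) image `MW a` of `J(ℚ) / 2 J(ℚ)`. There is a constant `C` such that for every `N` the sum
of `(# Sel2 a) ^ k` over all the tuples of distinct integers with `|a i| ≤ N` is at most `C` times
the number of the tuples with `|a i| ≤ N`. So, for all `N` and `r`, the number of these tuples for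
which `#Sel2 a / #MW a`, the order of `Ш(J)[2]`, is at least `2 ^ r`, is at most `C / 2 ^ (k r)`
times the number of the tuples with `|a i| ≤ N`. -/
theorem result (g k : ℕ) (hg : 1 ≤ g) (hk : 2 ^ k ≤ 4 * g) :
    (∀ a : Fin (2 * g + 1) → ℤ, Function.Injective a →
      (Sel2 a).Finite ∧ MW a ⊆ Sel2 a ∧ (MW a).Nonempty) ∧
    ∃ C : ℝ, ∀ N : ℕ, ∑ᶠ a ∈ Dist (2 * g + 1) N, ((Sel2 a).ncard : ℝ) ^ k ≤
        C * (Box (2 * g + 1) N).ncard ∧
      ∀ r : ℕ, ({a ∈ Dist (2 * g + 1) N | 2 ^ r * (MW a).ncard ≤ (Sel2 a).ncard}.ncard : ℝ) ≤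
        C / 2 ^ (k * r) * (Box (2 * g + 1) N).ncard := by
  classical
  have hodd : Odd (2 * g + 1) := ⟨g, rfl⟩
  have hfin : ∀ a : Fin (2 * g + 1) → ℤ, Function.Injective a →
      (Sel2 a).Finite ∧ MW a ⊆ Sel2 a ∧ (MW a).Nonempty := by
    intro a ha
    refine ⟨Pool.Agent.TH344.JG.seljf hodd ha, ?_, ?_⟩
    · rintro d ⟨h1, h2⟩
      exact ⟨h1, Pool.Agent.TH344.JG.LocJ_map (algebraMap ℚ ℝ) h2, fun p _ =>
        Pool.Agent.TH344.JG.LocJ_map (algebraMap ℚ ℚ_[p]) h2⟩
    · exact ⟨fun _ => 1, fun _ => squarefree_one, Pool.Agent.TH344.JG.LocJ_one ℚ a⟩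
  obtain ⟨C, hC0, hC⟩ := Pool.Agent.TH344.JG.momj hg hk
  have hC' : ∀ N : ℕ, ∑ a ∈ (Pool.Agent.TH344.JG.BoxJ (2 * g + 1) N).filter
      (fun a => Function.Injective a), ((Sel2 a).ncard : ℝ) ^ k ≤
      C * (Pool.Agent.TH344.JG.BoxJ (2 * g + 1) N).card := by
    intro N
    rcases Nat.eq_zero_or_pos N with rfl | hN
    · have h1 : (Pool.Agent.TH344.JG.BoxJ (2 * g + 1) 0).filter
          (fun a => Function.Injective a) = ∅ := by
        apply Finset.filter_eq_empty_iff.2
        intro a ha h1
        have h2 := Pool.Agent.TH344.JG.mem_BoxJ.1 ha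
        have h3 : a ⟨0, by omega⟩ = a ⟨1, by omega⟩ := by
          have := h2 ⟨0, by omega⟩
          have := h2 ⟨1, by omega⟩
          omega
        have h4 := h1 h3
        simp at h4
      rw [h1, Finset.sum_empty]
      positivity
    · exact (hC N hN).trans
        (mul_le_mul_of_nonneg_left (Pool.Agent.TH344.JG.le_card_BoxJ N) hC0)
  refine ⟨hfin, C, fun N => ⟨?_, fun r => ?_⟩⟩
  · rw [Dist_eq, finsum_mem_coe_finset, Box_eq, Set.ncard_coe_finset]
    exact hC' N
  · have h1 : {a ∈ Dist (2 * g + 1) N | 2 ^ r * (MW a).ncard ≤ (Sel2 a).ncard} =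
        ((((Pool.Agent.TH344.JG.BoxJ (2 * g + 1) N).filter (fun a => Function.Injective a)).filter
          (fun a => 2 ^ r * (MW a).ncard ≤ (Sel2 a).ncard) : Finset (Fin (2 * g + 1) → ℤ)) :
          Set (Fin (2 * g + 1) → ℤ)) := by
      rw [Dist_eq]
      ext a
      simp
    rw [h1, Set.ncard_coe_finset, Box_eq, Set.ncard_coe_finset, div_mul_eq_mul_div,
      le_div_iff₀ (by positivity)]
    refine le_trans ?_ (hC' N)
    calc ((((Pool.Agent.TH344.JG.BoxJ (2 * g + 1) N).filter
          (fun a => Function.Injective a)).filter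
          (fun a => 2 ^ r * (MW a).ncard ≤ (Sel2 a).ncard)).card : ℝ) * 2 ^ (k * r)
        = ∑ _a ∈ ((Pool.Agent.TH344.JG.BoxJ (2 * g + 1) N).filter
          (fun a => Function.Injective a)).filter
          (fun a => 2 ^ r * (MW a).ncard ≤ (Sel2 a).ncard), ((2 : ℝ) ^ r) ^ k := by
          rw [Finset.sum_const, nsmul_eq_mul, ← pow_mul, mul_comm k r]
      _ ≤ ∑ a ∈ ((Pool.Agent.TH344.JG.BoxJ (2 * g + 1) N).filter
          (fun a => Function.Injective a)).filter
          (fun a => 2 ^ r * (MW a).ncard ≤ (Sel2 a).ncard), ((Sel2 a).ncard : ℝ) ^ k := by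
          apply Finset.sum_le_sum
          intro a ha
          rw [Finset.mem_filter, Finset.mem_filter] at ha
          obtain ⟨h4, h5, h6⟩ := hfin a ha.1.2
          have h7 : 0 < (MW a).ncard := (Set.ncard_pos (h4.subset h5)).2 h6
          apply pow_le_pow_left₀ (by positivity)
          exact_mod_cast (Nat.le_mul_of_pos_right _ h7).trans ha.2
      _ ≤ _ := Finset.sum_le_sum_of_subset_of_nonneg (Finset.filter_subset _ _)
          fun a _ _ => by positivity

end Pool.Agent.Results.MP_a43263_nt.JacobianMoments
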