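import Mathlib
import Pool.Agent.TH344.PW.Intr
import Pool.Agent.TH344.PW.Main2
import Pool.Agent.TH344.JG.Main
import Pool.Agent.TH344.JG.MW

/-!
# All the moments of the 2-Selmer groups in one-parameter families of hyperelliptic Jacobians

Let `g ≥ 1` and let `u_0, ..., u_(2g)` be polynomials with integer coefficients, of any degrees, such
that the differences `u_i - u_j` are not constant and squarefree over `ℚ`, and the differences of
different pairs are coprime. (For instance `u_i = α_i t + β_i`, if the lines have different slopes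
and intersect over different points `t`; or generic polynomials of any degree.) Let `ν_(i,j)` be the
number of the irreducible factors of `u_i - u_j` over `ℚ`. We suppose that these numbers are
balanced: there are positive weights for the pairs `p ≠ q` of pairs of indices with a common index,
such that for every pair `p` the sum of the weights of the `(p, q)` is `ν_p`. This is the case if all
the `ν_(i,j)` are equal (lemma `balanced_of_equal`); for `g = 1` the condition is that the three
numbers `ν_(i,j)` satisfy the strict triangle inequalities.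

Let `J_t` be the Jacobian of the curve `y² = ∏ (x - u_i(t))` of genus `g`. We show that there is a
set `Z` of integers of density zero such that for every `k` the mean value of the `k`-th power of the
order of the 2-Selmer group of `J_t`, over the `t ∉ Z` of an interval `(N, N + M]`, `|N| ≤ M ^ L`, is
bounded. More generally this is true for the `t` for which the values `|G_1(t)|, ..., |G_r(t)|` of
given irreducible polynomials are all prime numbers, where `M` has to be replaced by
`M / (log M) ^ r`. So off `Z` the rank of `J_t(ℚ)` and the corank of `Ш(J_t)[2 ^ ∞]` are at least `n`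
for at most `C_A M / (A ^ n (log M) ^ r)` of these `t`, for every real number `A`.

The descent map. Every class of divisors of degree zero on `X : y² = ∏ (x - a_i)` over an infinite
field `K` contains a divisor `D_(u,v) = ∑ (x_j, v (x_j)) - deg u · ∞`, `x_j` the zeros of the monic
polynomial `u`, where `u` divides `∏ (x - a_i) - v²` and `u (a_i) ≠ 0` for all `i` (Mumford
representation). The map `J(K) / 2 J(K) → (K^* / K^*²)^(2g+1)` which sends this class to the family
of the classes of `(-1) ^ deg u * u (a_i)` is injective, and it is induced by the isomorphism of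
`J[2]` with the group of the families of signs with product one, indexed by the `a_i`. So the
2-Selmer group of `J` is the group of the families of classes in `ℚ^* / ℚ^*²`, that are in the image
over `ℝ` and over `ℚ_p` for all primes `p`. The classes of `ℚ^* / ℚ^*²` are represented by
squarefree integers.
-/

namespace Pool.Agent.Results.MP_a43263_nt.JacobianPencilTails

open Polynomial Finset

/-- The family of the classes of the integers `d i` in `K^* / K^*²` is in the image of the
Jacobian of `y² = ∏ (x - a i)` over `K`: there are a monic polynomial `u` and a polynomial `v` with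
`u ∣ ∏ (x - a i) - v²`, such that `u (a i) ≠ 0` and `(-1) ^ deg u * u (a i) * d i` is a square for
all `i`. -/
def Image (K : Type) [Field K] {n : ℕ} (a d : Fin n → ℤ) : Prop :=
  ∃ u v : K[X], u.Monic ∧ u ∣ (∏ i, (X - C ((a i : ℤ) : K))) - v ^ 2 ∧
    ∀ i, u.eval ((a i : ℤ) : K) ≠ 0 ∧
      IsSquare ((-1) ^ u.natDegree * u.eval ((a i : ℤ) : K) * ((d i : ℤ) : K))

/-- The image of the Mordell-Weil group `J(ℚ)`, as a set of families of squarefree integers. It has
as many elements as `J(ℚ) / 2 J(ℚ)`. -/
def MW {n : ℕ} (a : Fin n → ℤ) : Set (Fin n → ℤ) := {d | (∀ i, Squarefree (d i)) ∧ Image ℚ a d}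

/-- The 2-Selmer group of the Jacobian `J` of `y² = ∏ (x - a i)`, as a set of families of
squarefree integers. The quotient of this group by `MW a` is `Ш(J)[2]`. -/
def Sel2 {n : ℕ} (a : Fin n → ℤ) : Set (Fin n → ℤ) :=
  {d | (∀ i, Squarefree (d i)) ∧ Image ℝ a d ∧ ∀ (p : ℕ) [Fact p.Prime], Image ℚ_[p] a d}

/-- the family of the Weierstrass points of the member `t` of the family of curves -/
def member {n : ℕ} (u : Fin n → ℤ[X]) (t : ℤ) : Fin n → ℤ := fun i => (u i).eval t

/-- the polynomial `p` as a polynomial with rational coefficients -/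
noncomputable def overQ (p : ℤ[X]) : ℚ[X] := p.map (Int.castRingHom ℚ)

/-- the pairs of indices -/
abbrev Pair (n : ℕ) : Type := {p : Fin n × Fin n // p.1 < p.2}

/-- two different pairs of indices with a common index -/
def Meet {n : ℕ} (p q : Pair n) : Prop :=
  p ≠ q ∧ (p.1.1 = q.1.1 ∨ p.1.1 = q.1.2 ∨ p.1.2 = q.1.1 ∨ p.1.2 = q.1.2)

/-- The numbers `ν p` are balanced: they are the row sums of a symmetric matrix `A` whose entries are
positive at the `(p, q)` with `Meet p q`, and zero otherwise. -/
def Balanced {n : ℕ} (ν : Pair n → ℕ) : Prop :=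
  ∃ A : Pair n → Pair n → ℝ, (∀ p q, A p q = A q p) ∧ (∀ p q, Meet p q → 0 < A p q) ∧
    (∀ p q, ¬ Meet p q → A p q = 0) ∧ ∀ p, ∑ q, A p q = ν p

/-- the numbers of the irreducible factors over `ℚ` of the differences `u i - u j` -/
noncomputable def factors {n : ℕ} (u : Fin n → ℤ[X]) (p : Pair n) : ℕ :=
  (UniqueFactorizationMonoid.normalizedFactors (overQ (u p.1.1 - u p.1.2))).card

/-- The family is admissible: the differences `u i - u j` are not constant and squarefree, the
differences of different pairs are coprime, over the rationals, and the numbers of the irreducible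
factors of the differences are balanced. -/
structure Admissible {n : ℕ} (u : Fin n → ℤ[X]) : Prop where
  nonconstant : ∀ i j, i < j → 0 < (u i - u j).natDegree
  squarefree : ∀ i j, i < j → Squarefree (overQ (u i - u j))
  coprime : ∀ i j k l, i < j → k < l → (i, j) ≠ (k, l) →
    IsCoprime (overQ (u i - u j)) (overQ (u k - u l))
  balanced : Balanced (factors u)

/-- The polynomials `G i` are irreducible, not constant, not associated with each other, and coprime
to the differences of the `u i`. -/
structure Independent {n r : ℕ} (u : Fin n → ℤ[X]) (G : Fin r → ℤ[X]) : Prop where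
  irreducible : ∀ l, Irreducible (G l)
  nonconstant : ∀ l, 0 < (G l).natDegree
  different : ∀ l m, l ≠ m → ¬ Associated (G l) (G m)
  coprime : ∀ l i j, i < j → IsCoprime (overQ (G l)) (overQ (u i - u j))

open Classical in
/-- The integers `t` of the interval `(N, N + M]` such that all the numbers `|G l (t)|` are prime,
and `P t` holds. -/
noncomputable def arguments {r : ℕ} (G : Fin r → ℤ[X]) (N : ℤ) (M : ℕ) (P : ℤ → Prop) : Finset ℤ :=
  (Ioc N (N + (M : ℤ))).filter (fun t => (∀ l, ((G l).eval t).natAbs.Prime) ∧ P t)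

lemma mem_arguments {r : ℕ} {G : Fin r → ℤ[X]} {N : ℤ} {M : ℕ} {P : ℤ → Prop} {t : ℤ} :
    t ∈ arguments G N M P ↔ t ∈ Ioc N (N + (M : ℤ)) ∧
      (∀ l, ((G l).eval t).natAbs.Prime) ∧ P t := by
  classical
  unfold arguments
  rw [mem_filter]

lemma markov {S : Finset ℤ} {R : ℤ → ℝ} {P : ℤ → Prop} [DecidablePred P] {k m : ℕ} {B : ℝ}
    (hR : ∀ t ∈ S, 0 ≤ R t) (h : ∑ t ∈ S, R t ^ k ≤ B) (hP : ∀ t ∈ S, P t → (2 : ℝ) ^ m ≤ R t) :
    ((2 : ℝ) ^ k) ^ m * ((S.filter P).card : ℝ) ≤ B := by
  refine le_trans ?_ h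
  calc ((2 : ℝ) ^ k) ^ m * ((S.filter P).card : ℝ) = ∑ t ∈ S.filter P, ((2 : ℝ) ^ k) ^ m := by
        rw [sum_const, nsmul_eq_mul, mul_comm]
    _ ≤ ∑ t ∈ S.filter P, R t ^ k := by
        apply sum_le_sum
        intro t ht
        rw [mem_filter] at ht
        rw [← pow_mul, mul_comm, pow_mul]
        exact pow_le_pow_left₀ (by positivity) (hP t ht.1 ht.2) k
    _ ≤ _ := sum_le_sum_of_subset_of_nonneg (filter_subset _ _) fun t ht _ =>
        pow_nonneg (hR t ht) k

lemma adj_iff {n : ℕ} (p q : Pair n) : Pool.Agent.TH344.JG.adj p q = true ↔ Meet p q := by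
  unfold Pool.Agent.TH344.JG.adj Meet
  rw [Bool.and_eq_true, decide_eq_true_eq, decide_eq_true_eq]

lemma bal_of {n : ℕ} {ν : Pair n → ℕ} (h : Balanced ν) : Pool.Agent.TH344.PW.Bal n ν := by
  obtain ⟨A, h1, h2, h3, h4⟩ := h
  refine ⟨A, h1, fun p q hpq => h2 p q ((adj_iff p q).1 hpq), fun p q hpq => h3 p q ?_, h4⟩
  intro h5
  rw [(adj_iff p q).2 h5] at hpq
  exact Bool.noConfusion hpq

lemma card_fst {n : ℕ} (i : Fin n) : (univ.filter (fun q : Pair n => i = q.1.1)).card = n - 1 - i := by
  rw [← Fin.card_Ioi i]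
  refine card_bij (fun q _ => q.1.2) ?_ ?_ ?_
  · intro q hq
    rw [mem_filter] at hq
    rw [mem_Ioi, hq.2]
    exact q.2
  · intro q hq q' hq' h
    rw [mem_filter] at hq hq'
    exact Subtype.ext (Prod.ext (hq.2.symm.trans hq'.2) h)
  · intro j hj
    rw [mem_Ioi] at hj
    exact ⟨⟨(i, j), hj⟩, by simp, rfl⟩

lemma card_snd {n : ℕ} (i : Fin n) : (univ.filter (fun q : Pair n => i = q.1.2)).card = i := by
  rw [← Fin.card_Iio i]
  refine card_bij (fun q _ => q.1.1) ?_ ?_ ?_
  · intro q hq
    rw [mem_filter] at hq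
    rw [mem_Iio, hq.2]
    exact q.2
  · intro q hq q' hq' h
    rw [mem_filter] at hq hq'
    exact Subtype.ext (Prod.ext h (hq.2.symm.trans hq'.2))
  · intro j hj
    rw [mem_Iio] at hj
    exact ⟨⟨(j, i), hj⟩, by simp, rfl⟩

open Classical in
lemma card_meet {n : ℕ} (p : Pair n) :
    (univ.filter (fun q => Meet p q)).card = 2 * (n - 2) := by
  have h1 : ∀ q : Pair n, (if Meet p q then 1 else 0) + (if p = q then 2 else 0) =
      (if p.1.1 = q.1.1 then 1 else 0) + (if p.1.1 = q.1.2 then 1 else 0) +
      (if p.1.2 = q.1.1 then 1 else 0) + (if p.1.2 = q.1.2 then 1 else 0) := by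
    intro q
    obtain ⟨⟨a, b⟩, hab⟩ := p
    obtain ⟨⟨c, d⟩, hcd⟩ := q
    simp only at hab hcd
    unfold Meet
    simp only [ne_eq, Subtype.mk.injEq, Prod.mk.injEq]
    split_ifs <;> first | rfl | (exfalso; omega)
  have h2 := sum_congr (rfl : (univ : Finset (Pair n)) = univ) (fun q _ => h1 q)
  rw [sum_add_distrib, sum_add_distrib, sum_add_distrib, sum_add_distrib, ← card_filter,
    ← card_filter, ← card_filter, ← card_filter, ← card_filter, card_fst, card_fst, card_snd,
    card_snd, sum_ite_eq, if_pos (mem_univ _)] at h2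
  have h3 := p.1.1.2
  have h4 := p.1.2.2
  omega

/-- Equal numbers are balanced, if there are at least three indices. -/
lemma balanced_of_equal {n : ℕ} (hn : 3 ≤ n) (ν : Pair n → ℕ) (m : ℕ) (hm : 1 ≤ m)
    (h : ∀ p, ν p = m) : Balanced ν := by
  classical
  refine ⟨fun p q => if Meet p q then (m : ℝ) / (2 * (n - 2) : ℕ) else 0, ?_, ?_, ?_, ?_⟩
  · intro p q
    have : Meet p q ↔ Meet q p := by
      unfold Meet
      constructor
      · rintro ⟨h1, h2⟩
        exact ⟨h1.symm, by tauto⟩
      · rintro ⟨h1, h2⟩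
        exact ⟨h1.symm, by tauto⟩
    simp only [this]
  · intro p q hpq
    have h1 : 0 < 2 * (n - 2) := by omega
    have h2 : (0 : ℝ) < (2 * (n - 2) : ℕ) := by exact_mod_cast h1
    have h3 : (0 : ℝ) < m := by exact_mod_cast hm
    simp only [hpq, if_true]
    positivity
  · intro p q hpq
    simp only [hpq, if_false]
  · intro p
    have h1 : 0 < 2 * (n - 2) := by omega
    have h2 : (0 : ℝ) < (2 * (n - 2) : ℕ) := by exact_mod_cast h1
    rw [← sum_filter, sum_const, card_meet p, nsmul_eq_mul, h p]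
    field_simp

/-- **Theorem.** Let `g ≥ 1`. Equal positive numbers `ν p`, `p` the pairs of indices from `0` to
`2 g`, are balanced. Let `u` be an admissible family of `2 g + 1` polynomials with integer
coefficients. For every integer `t` for which the numbers `u i (t)` are different, the
2-Selmer group `Sel2 (member u t)` of the Jacobian `J_t` of `y² = ∏ (x - u i (t))` is finite and
contains the (nonempty) image `MW (member u t)` of `J_t(ℚ) / 2 J_t(ℚ)`. Let `G` be a family of
`r ≥ 0` polynomials that is independent of `u`. There is a set `Z` of integers with the following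
properties. If `t ∉ Z` the numbers `u i (t)` are different. For all `L` and `ε > 0` there is `M0` such
that at most `ε * M / (log M) ^ r` of the integers `t` of `(N, N + M]` for which all the `|G l (t)|`
are prime are elements of `Z`, for all `M ≥ M0` and all `N`, `|N| ≤ M ^ L`. For all `k` and `L` there
is `C` such that the sum of `(# Sel2 (member u t)) ^ k` over the integers `t ∉ Z` of `(N, N + M]` for
which all the `|G l (t)|` are prime is at most `C * M / (log M) ^ r`, for all `M ≥ 2` and all `N`,
`|N| ≤ M ^ L`. For every real number `A ≥ 0` and every `L` there is `C` such that for all `n`, all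
`M ≥ 2` and all `N`, `|N| ≤ M ^ L`, the number of these `t ∉ Z` with `# Sel2 ≥ 2 ^ n` is at most
`C * M / (A ^ n * (log M) ^ r)`; the same holds for `# MW ≥ 2 ^ n` and for `# Sel2 / # MW ≥ 2 ^ n`,
where `# Sel2 / # MW` is the order of `Ш(J_t)[2]`. -/
theorem result (g : ℕ) (hg : 1 ≤ g) :
    (∀ (ν : Pair (2 * g + 1) → ℕ) (m : ℕ), 1 ≤ m → (∀ p, ν p = m) → Balanced ν) ∧
    ∀ u : Fin (2 * g + 1) → ℤ[X], Admissible u →
    (∀ t : ℤ, Function.Injective (member u t) → (Sel2 (member u t)).Finite ∧
      MW (member u t) ⊆ Sel2 (member u t) ∧ (MW (member u t)).Nonempty) ∧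
    ∀ (r : ℕ) (G : Fin r → ℤ[X]), Independent u G → ∃ Z : Set ℤ,
      (∀ t, t ∉ Z → Function.Injective (member u t)) ∧
      (∀ (L : ℕ) (ε : ℝ), 0 < ε → ∃ M0 : ℕ, ∀ (N : ℤ) (M : ℕ), M0 ≤ M → |N| ≤ (M : ℤ) ^ L →
        ((arguments G N M (fun t => t ∈ Z)).card : ℝ) ≤ ε * (M / (Real.log M) ^ r)) ∧
      (∀ k L : ℕ, ∃ C : ℝ, ∀ (N : ℤ) (M : ℕ), 2 ≤ M → |N| ≤ (M : ℤ) ^ L →
        ∑ t ∈ arguments G N M (fun t => t ∉ Z),
          ((Sel2 (member u t)).ncard : ℝ) ^ k ≤ C * (M / (Real.log M) ^ r)) ∧
      ∀ (A : ℝ) (L : ℕ), 0 ≤ A → ∃ C : ℝ, ∀ (n : ℕ) (N : ℤ) (M : ℕ), 2 ≤ M →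
        |N| ≤ (M : ℤ) ^ L →
        A ^ n * ((arguments G N M (fun t => t ∉ Z ∧
          2 ^ n ≤ (Sel2 (member u t)).ncard)).card : ℝ) ≤ C * (M / (Real.log M) ^ r) ∧
        A ^ n * ((arguments G N M (fun t => t ∉ Z ∧
          2 ^ n ≤ (MW (member u t)).ncard)).card : ℝ) ≤ C * (M / (Real.log M) ^ r) ∧
        A ^ n * ((arguments G N M (fun t => t ∉ Z ∧
          2 ^ n * (MW (member u t)).ncard ≤ (Sel2 (member u t)).ncard)).card : ℝ) ≤
            C * (M / (Real.log M) ^ r) := by
  classical
  refine ⟨fun ν m hm h => balanced_of_equal (by omega) ν m hm h, fun u hu => ?_⟩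
  have hodd : Odd (2 * g + 1) := ⟨g, rfl⟩
  have hfin : ∀ t : ℤ, Function.Injective (member u t) → (Sel2 (member u t)).Finite ∧
      MW (member u t) ⊆ Sel2 (member u t) ∧ (MW (member u t)).Nonempty := by
    intro t ht
    refine ⟨Pool.Agent.TH344.JG.seljf hodd ht, ?_, ?_⟩
    · rintro e ⟨h1, h2⟩
      exact ⟨h1, Pool.Agent.TH344.JG.LocJ_map (algebraMap ℚ ℝ) h2, fun p _ =>
        Pool.Agent.TH344.JG.LocJ_map (algebraMap ℚ ℚ_[p]) h2⟩
    · exact ⟨fun _ => 1, fun _ => squarefree_one, Pool.Agent.TH344.JG.LocJ_one ℚ _⟩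
  refine ⟨hfin, fun r G hG => ?_⟩
  have hGen : Pool.Agent.TH344.PJ.Gen u := ⟨hu.squarefree, hu.coprime⟩
  have hpos : ∀ c : Pool.Agent.TH344.JG.PR (2 * g + 1),
      Pool.Agent.TH344.PJ.nf (u c.1.1 - u c.1.2) ≠ 0 := by
    intro c h0
    unfold Pool.Agent.TH344.PJ.nf at h0
    have h1 := hu.nonconstant _ _ c.2
    have h2 : (overQ (u c.1.1 - u c.1.2)).natDegree = (u c.1.1 - u c.1.2).natDegree :=
      natDegree_map_eq_of_injective (RingHom.injective_int (Int.castRingHom ℚ)) _
    have h3 : overQ (u c.1.1 - u c.1.2) ≠ 0 := by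
      intro h
      rw [h, natDegree_zero] at h2
      omega
    have h4 : ¬ IsUnit (overQ (u c.1.1 - u c.1.2)) := by
      intro h
      have := natDegree_eq_zero_of_isUnit h
      omega
    rw [Multiset.card_eq_zero] at h0
    have h5 := UniqueFactorizationMonoid.prod_normalizedFactors h3
    have h6 : UniqueFactorizationMonoid.normalizedFactors (overQ (u c.1.1 - u c.1.2)) = 0 := h0
    rw [h6, Multiset.prod_zero] at h5
    exact h4 (h5.isUnit isUnit_one)
  obtain ⟨Z, hZ1, hZ2, hZ3⟩ := Pool.Agent.TH344.PW.gen_prime Pool.Agent.TH344.PW.penq g hg u hGen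
    hpos (bal_of hu.balanced) ⟨hG.irreducible, hG.nonconstant, hG.different⟩ hG.coprime
  have hmom : ∀ k L : ℕ, ∃ C : ℝ, ∀ (N : ℤ) (M : ℕ), 2 ≤ M → |N| ≤ (M : ℤ) ^ L →
      ∑ t ∈ arguments G N M (fun t => t ∉ Z),
        ((Sel2 (member u t)).ncard : ℝ) ^ k ≤ C * (M / (Real.log M) ^ r) := by
    intro k L
    obtain ⟨C, hC⟩ := hZ3 k L
    refine ⟨C, fun N M hM hN => ?_⟩
    refine le_trans (le_of_eq ?_) (hC N M hM hN)
    apply sum_congr _ fun _ _ => rfl
    ext t
    rw [mem_arguments, mem_filter]
    rfl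
  refine ⟨Z, hZ1, fun L ε hε => ?_, hmom, fun A L hA => ?_⟩
  · obtain ⟨M0, hM0⟩ := hZ2 L ε hε
    refine ⟨M0, fun N M hM hN => ?_⟩
    refine le_trans (le_of_eq ?_) (hM0 N M hM hN)
    apply congrArg
    apply congrArg
    ext t
    rw [mem_arguments, mem_filter]
    rfl
  obtain ⟨k, hk⟩ := pow_unbounded_of_one_lt A (one_lt_two : (1 : ℝ) < 2)
  obtain ⟨C, hC⟩ := hmom k L
  refine ⟨C, fun n N M hM hN => ?_⟩
  have h0 := hC N M hM hN
  have key : ∀ P : ℤ → Prop, (∀ t, Function.Injective (member u t) → P t →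
      (2 : ℝ) ^ n ≤ ((Sel2 (member u t)).ncard : ℝ)) →
      A ^ n * ((arguments G N M (fun t => t ∉ Z ∧ P t)).card : ℝ) ≤
        C * (M / (Real.log M) ^ r) := by
    intro P hP
    have h1 := markov (P := P) (m := n) (fun t _ => Nat.cast_nonneg _) h0 (fun t ht h2 =>
      hP t (hZ1 t (mem_arguments.1 ht).2.2) h2)
    have h2 : (arguments G N M (fun t => t ∉ Z)).filter P =
        arguments G N M (fun t => t ∉ Z ∧ P t) := by
      ext t
      rw [mem_filter, mem_arguments, mem_arguments]
      tauto
    rw [h2] at h1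
    refine le_trans (mul_le_mul_of_nonneg_right ?_ (Nat.cast_nonneg _)) h1
    exact pow_le_pow_left₀ hA hk.le n
  refine ⟨key _ fun t _ h => by exact_mod_cast h, key _ fun t ht h => ?_, key _ fun t ht h => ?_⟩
  · obtain ⟨h4, h5, -⟩ := hfin _ ht
    exact_mod_cast h.trans (Set.ncard_le_ncard h5 h4)
  · obtain ⟨h4, h5, h6⟩ := hfin _ ht
    have h7 : 0 < (MW (member u t)).ncard := (Set.ncard_pos (h4.subset h5)).2 h6
    exact_mod_cast (Nat.le_mul_of_pos_right _ h7).trans h

end Pool.Agent.Results.MP_a43263_nt.JacobianPencilTails
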