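import Mathlib
import Pool.Agent.TH826.PT.Fam
import Pool.Agent.TH841.PT.Fin1

/-!
# Tate-Shafarevich groups of abelian varieties: products of quadratic twists

`E_1, …, E_g` are elliptic curves over `ℚ` with full rational 2-torsion and `D_1, …, D_g` arbitrary
nonzero polynomials with integer coefficients. Over the integers `t` of an interval `(N, N + M]`,
`|N| ≤ M ^ L`, all the moments of `2 ^ rank * #Ш[2 ^ k] ^ (1 / k)` of the `g`-dimensional abelian
varieties `A_t = E_1^{D_1(t)} × … × E_g^{D_g(t)}` are bounded.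
-/

set_option autoImplicit false

namespace Pool.Agent.Results.MP_a43263_nt.ProductsOfTwists

open Finset Polynomial

open Pool.Agent.TH826.PT (ShaP ShaTorP HasDivP rkP)

/-- the quadratic twist `y² = x³ + d² A x + d³ B` of `y² = x³ + A x + B` over `ℚ` by `d` -/
def Tw (A B d : ℤ) : WeierstrassCurve ℚ := ⟨0, 0, 0, ((d ^ 2 * A : ℤ) : ℚ), ((d ^ 3 * B : ℤ) : ℚ)⟩

/-- the integers `t` with `N < t ≤ N + M` and `D_j(t) ≠ 0` for all `j` -/
noncomputable def Par {g : ℕ} (D : Fin g → ℤ[X]) (N : ℤ) (M : ℕ) : Finset ℤ :=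
  (Ioc N (N + M)).filter (fun t => ∀ j, (D j).eval t ≠ 0)

/-- the factors `E_j^{D_j(t)}` of the abelian variety `A_t`, the twists by `D_j(t)` of the curves
`y² = x³ + A_j x + B_j` -/
def AV {g : ℕ} (A B : Fin g → ℤ) (D : Fin g → ℤ[X]) (t : ℤ) : Fin g → WeierstrassCurve ℚ :=
  fun j => Tw (A j) (B j) ((D j).eval t)

open Classical in
/-- **Theorem.** Let `E_j : y² = (x - a_j) (x - b_j) (x - c_j) = x³ + A_j x + B_j`, `1 ≤ j ≤ g`, be
elliptic curves with integers `a_j`, `b_j`, `c_j`, let `D_j ≠ 0` be arbitrary polynomials with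
integer coefficients, and let `A_t` be the `g`-dimensional abelian variety over `ℚ` that is the
product of the quadratic twists of the `E_j` by `D_j(t)`. For all `s ≥ 1` and `L` there is `C` such
that for all integers `M ≥ 1` and `|N| ≤ M ^ L` and the `t` with `N < t ≤ N + M`, `D_j(t) ≠ 0` for
all `j`: the groups `Ш(A_t)[2 ^ k]` are finite, the sum of
`(2 ^ rank * #Ш(A_t)[2 ^ k] ^ (1 / k)) ^ s` is at most `C M` for all `k ≥ 1`, and at most
`C M / 2 ^ (s (r + q))` of these `A_t` have rank at least `r` and a subgroup `(ℚ₂ / ℤ₂) ^ q` in the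
Tate-Shafarevich group. -/
theorem result (g : ℕ) (hg : 1 ≤ g) (A B a b c : Fin g → ℤ)
    (hE : ∀ j, 4 * A j ^ 3 + 27 * B j ^ 2 ≠ 0)
    (he : ∀ j, ∀ x : ℤ, x ^ 3 + A j * x + B j = (x - a j) * (x - b j) * (x - c j))
    (D : Fin g → ℤ[X]) (hD : ∀ j, D j ≠ 0) (s L : ℕ) (hs : 1 ≤ s) :
    ∃ C : ℝ, ∀ (N : ℤ) (M : ℕ), 1 ≤ M → |N| ≤ (M : ℤ) ^ L →
      (∀ t ∈ Par D N M, ∀ k : ℕ, Finite (ShaTorP (AV A B D t) (2 ^ k))) ∧
      (∀ k : ℕ, 1 ≤ k → ∑ t ∈ Par D N M, ((2 : ℝ) ^ rkP (AV A B D t) *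
        (Nat.card (ShaTorP (AV A B D t) (2 ^ k)) : ℝ) ^ ((1 : ℝ) / k)) ^ s ≤ C * M) ∧
      ∀ r q : ℕ, (((Par D N M).filter (fun t => r ≤ rkP (AV A B D t) ∧
        HasDivP (AV A B D t) q)).card : ℝ) ≤ C * M / 2 ^ (s * (r + q)) := by
  choose C hC using fun j => Pool.Agent.TH841.PT.sel_poly Pool.Agent.TH841.PT.avsq (hE j) (he j)
    (D j) (hD j) (s * g) L
  refine ⟨∑ j, C j, fun N M hM hN => ?_⟩
  have hbd : ∀ t ∈ Par D N M, ∀ j, Pool.Agent.TH841.SH.Bd (AV A B D t j)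
      ((Pool.Agent.W307.SE.SelR (((D j).eval t) ^ 2 * A j)
        (((D j).eval t) ^ 3 * B j)).ncard : ℝ) := by
    intro t ht j
    have hd := (mem_filter.1 ht).2 j
    exact Pool.Agent.TH841.SH.bd_selR (Pool.Agent.TH639.SL.disc_tw hd (hE j))
      (Pool.Agent.TH639.SL.roots_tw (he j) _) (Pool.Agent.TH639.SL.sel_tw (hE j) (he j) hd).1
  have h := Pool.Agent.TH826.PT.familyP hg (Par D N M) (fun t => AV A B D t) _
    (fun j => C j * M) s hbd (fun j => by
      refine le_trans ?_ (hC j N M hM hN)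
      refine sum_le_sum_of_subset_of_nonneg ?_ (fun _ _ _ => by positivity)
      intro t ht
      rw [Par, mem_filter] at ht
      exact mem_filter.2 ⟨ht.1, ht.2 j⟩)
  rw [← Finset.sum_mul] at h
  exact h

end Pool.Agent.Results.MP_a43263_nt.ProductsOfTwists
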