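import Mathlib
import Pool.Agent.TH344.DT.Main
import Pool.Agent.TH344.DT.Tor
import Pool.Agent.TH344.SH.Cnt
import Pool.Agent.TH344.SG.Cor
import Pool.Agent.W307.RT.Tors

/-!
# The tails of the distribution of the Tate-Shafarevich groups

All elliptic curves over `ℚ` with full rational 2-torsion, ordered by height. There is one set of
curves of density zero such that over all the other curves, for all `m`, all the moments of
`(2 ^ m) ^ rank * #Ш[2 ^ m]` are bounded. So the upper density of the curves with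
`rank + corank ≥ r`, where `corank` is the corank of the 2-primary part of `Ш` (which is finite if
and only if the corank is zero), decays faster than any exponential `A ^ (-r)`.

The group `Ш` is that of `Pool.Agent.TH344.SH.Def`: classes of continuous 1-cocycles of the absolute
Galois group of `ℚ` with values in the points over the algebraic numbers, that are trivial over all
completions `ℚ_p` and `ℝ`.
-/

namespace Pool.Agent.Results.MP_a43263_nt.ShaTails

open Finset Filter Topology Pool.Agent.TH344.SH Pool.Agent.TH344.SG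

/-- the curve `y² = x³ + A x + B` over `ℚ` -/
def E (A B : ℤ) : WeierstrassCurve ℚ := ⟨0, 0, 0, (A : ℚ), (B : ℚ)⟩

/-- The pairs `(A, B)` of integers such that `4 A³ + 27 B² ≠ 0`, there is no prime `p` with
`p⁴ ∣ A` and `p⁶ ∣ B`, `Z/2 x Z/2` embeds in the group of the rational points of
`y² = x³ + A x + B`, and the height `max (4 |A|³) (27 B²)` is at most `H`. Every elliptic curve over
`ℚ` with full rational 2-torsion is isomorphic to `E A B` for exactly one pair with the first three
properties. -/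
def Fam (H : ℕ) : Set (ℤ × ℤ) :=
  {c : ℤ × ℤ | 4 * c.1 ^ 3 + 27 * c.2 ^ 2 ≠ 0 ∧
    (∀ p : ℕ, p.Prime → ¬ ((p : ℤ) ^ 4 ∣ c.1 ∧ (p : ℤ) ^ 6 ∣ c.2)) ∧
    (∃ f : ZMod 2 × ZMod 2 →+ (E c.1 c.2).toAffine.Point, Function.Injective f) ∧
    4 * |c.1| ^ 3 ≤ H ∧ 27 * c.2 ^ 2 ≤ H}

open scoped Classical in
/-- the Mordell-Weil rank -/
noncomputable def rank (c : ℤ × ℤ) : ℕ := Module.finrank ℤ (E c.1 c.2).toAffine.Point

/-- the number of the elements of `Ш(E / ℚ)` killed by `n` -/
noncomputable def sha (n : ℕ) (c : ℤ × ℤ) : ℕ := Nat.card (ShaTorsion (E c.1 c.2) n)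

open scoped Classical in
/-- The corank of the 2-primary part of `Ш(E / ℚ)`: the largest `t` such that `(ℤ / 2 ^ n) ^ t` embeds
in `Ш(E / ℚ)` for all `n`. (The 2-primary part is the direct sum of `t` copies of `ℚ_2 / ℤ_2` and a
finite group; it is finite if and only if `t = 0`.) -/
noncomputable def corank (c : ℤ × ℤ) : ℕ := corank2 (Sha (E c.1 c.2))

/-- the proportion of the curves of `S` among the curves of height at most `H` -/
noncomputable def proportion (S : Set (ℤ × ℤ)) (H : ℕ) : ℝ :=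
  ((Fam H ∩ S).ncard : ℝ) / (Fam H).ncard

/-- the upper density of a set of curves -/
noncomputable def upperDensity (S : Set (ℤ × ℤ)) : ℝ := limsup (proportion S) atTop

lemma Fam_eq (H : ℕ) : Fam H = (Pool.Agent.W307.RT.Cv 2 H : Set (ℤ × ℤ)) := by
  classical
  ext c
  have h : Pool.Agent.W307.RT.HasT 2 (Pool.Agent.W307.RT.Sh c.1 c.2) ↔
    ∃ f : ZMod 2 × ZMod 2 →+ (E c.1 c.2).toAffine.Point, Function.Injective f :=
    Pool.Agent.W307.RT.tors_iff
  unfold Fam Pool.Agent.W307.RT.Cv
  rw [Set.mem_ofPred_eq, mem_coe, mem_filter, h, mem_product, mem_Icc, mem_Icc]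
  constructor
  · rintro ⟨h1, h2, h3, h4, h5⟩
    refine ⟨⟨?_, ?_⟩, h1, h4, h5, h2, h3⟩
    · rw [← abs_le]
      have h0 := abs_nonneg c.1
      rcases eq_or_lt_of_le h0 with h6 | h6
      · rw [← h6]; positivity
      · have : 1 ≤ |c.1| := h6
        nlinarith [mul_nonneg h0 h0, mul_self_nonneg (|c.1| - 1)]
    · rw [← abs_le]
      have h0 := abs_nonneg c.2
      rw [← sq_abs] at h5
      rcases eq_or_lt_of_le h0 with h6 | h6
      · rw [← h6]; positivity
      · have : 1 ≤ |c.2| := h6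
        nlinarith
  · rintro ⟨-, h1, h4, h5, h2, h3⟩
    exact ⟨h1, h2, h3, h4, h5⟩

lemma Fam_ncard (H : ℕ) : (Fam H).ncard = (Pool.Agent.W307.RT.Cv 2 H).card := by
  rw [Fam_eq, Set.ncard_coe_finset]

lemma upperDensity_eq (S : Set (ℤ × ℤ)) : upperDensity S = Pool.Agent.TH344.DT.ud S := by
  unfold upperDensity Pool.Agent.TH344.DT.ud proportion
  simp only [Fam_eq, Set.ncard_coe_finset]

/-- one curve -/
lemma curve {H : ℕ} {c : ℤ × ℤ} (hc : c ∈ Pool.Agent.W307.RT.Cv 2 H) (m : ℕ) :
    Finite (ShaTorsion (E c.1 c.2) (2 ^ m)) ∧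
      (2 ^ m) ^ rank c * sha (2 ^ m) c ≤ (Pool.Agent.W307.SE.SelR c.1 c.2).ncard ^ m ∧
      2 ^ (rank c + corank c) ≤ (Pool.Agent.W307.SE.SelR c.1 c.2).ncard := by
  classical
  obtain ⟨F, -, hF⟩ := Pool.Agent.W513.FK.parf
  have h1 := hc
  unfold Pool.Agent.W307.RT.Cv at h1
  obtain ⟨-, h2, -, -, -, h3⟩ := mem_filter.1 h1
  obtain ⟨-, -, -, -, -, e1, e2, e3, he, -, -⟩ := hF c h2 h3
  obtain ⟨h4, h5⟩ := sha_sel h2 he (Pool.Agent.TH344.DT.selfin2 H c hc)
  obtain ⟨h6, h7⟩ := Pool.Agent.TH344.DT.tors_pow (G := Sha (E c.1 c.2)) h4 m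
  have h5' : 2 ^ rank c * sha 2 c ≤ (Pool.Agent.W307.SE.SelR c.1 c.2).ncard := h5
  refine ⟨h6, ?_, ?_⟩
  · calc (2 ^ m) ^ rank c * sha (2 ^ m) c ≤ (2 ^ m) ^ rank c * sha 2 c ^ m :=
        Nat.mul_le_mul_left _ h7
      _ = (2 ^ rank c * sha 2 c) ^ m := by
        rw [mul_pow, ← pow_mul, ← pow_mul, mul_comm m]
      _ ≤ _ := Nat.pow_le_pow_left h5' m
  · have h8 := corank2_le (G := Sha (E c.1 c.2)) (n := 1) le_rfl (by rw [pow_one]; exact h4)
    rw [pow_one] at h8
    rw [pow_add]
    exact (Nat.mul_le_mul_left _ h8).trans h5'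

/-- **Theorem.** The number of the elliptic curves over `ℚ` with full rational 2-torsion and height
at most `H` is finite and tends to infinity with `H`, and their groups `Ш[2 ^ m]` are finite. There is
a set `Z` of curves of density zero such that for all `m` and `k` the sum of the `k`-th powers of
`(2 ^ m) ^ rank * #Ш[2 ^ m]` over the curves of height at most `H` outside of `Z` is at most `C_{m,k}`
times the number of the curves of height at most `H`. For every real number `A`, the upper density of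
the curves with `rank + corank ≥ r` times `A ^ r` tends to zero for `r → ∞`, and so does for every
`m` the upper density of the curves with at least `2 ^ r` elements in `Ш[2 ^ m]` times `A ^ r`. -/
theorem result :
    (∀ H : ℕ, (Fam H).Finite ∧ ∀ c ∈ Fam H, ∀ m : ℕ, Finite (ShaTorsion (E c.1 c.2) (2 ^ m))) ∧
    Tendsto (fun H : ℕ => (Fam H).ncard) atTop atTop ∧
    (∃ Z : Set (ℤ × ℤ), Tendsto (proportion Z) atTop (𝓝 0) ∧ ∀ m k : ℕ, ∃ C : ℝ, ∀ H : ℕ,
      ∑ᶠ c ∈ Fam H \ Z, (((2 ^ m) ^ rank c * sha (2 ^ m) c : ℕ) : ℝ) ^ k ≤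
        C * (Fam H).ncard) ∧
    (∀ A : ℝ, Tendsto (fun r : ℕ => A ^ r * upperDensity {c | r ≤ rank c + corank c}) atTop
      (𝓝 0)) ∧
    ∀ (m : ℕ) (A : ℝ), Tendsto (fun r : ℕ => A ^ r * upperDensity {c | 2 ^ r ≤ sha (2 ^ m) c}) atTop
      (𝓝 0) := by
  classical
  refine ⟨fun H => ?_, ?_, ?_, fun A => ?_, fun m A => ?_⟩
  · rw [Fam_eq]
    exact ⟨finite_toSet _, fun c hc m => (curve (mem_coe.1 hc) m).1⟩
  · simp only [Fam_ncard]
    exact Pool.Agent.W307.RT.tendsto_of_low Pool.Agent.W672.FK.lowf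
  · obtain ⟨Z, hZ1, hZ2⟩ := Pool.Agent.TH344.DT.exc
    refine ⟨Z, ?_, fun m k => ?_⟩
    · rw [Metric.tendsto_atTop]
      intro ε hε
      obtain ⟨H0, hH0⟩ := hZ1 (ε / 2) (by positivity)
      refine ⟨H0, fun H hH => ?_⟩
      have h1 := hH0 H hH
      have h2 : (Fam H ∩ Z).ncard =
          ((Pool.Agent.W307.RT.Cv 2 H).filter (fun c => c ∈ Z)).card := by
        rw [← Set.ncard_coe_finset, Fam_eq]
        congr 1
        ext c
        simp
      unfold proportion
      rw [h2, Fam_ncard, Real.dist_eq, sub_zero, abs_of_nonneg (by positivity)]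
      rcases Nat.eq_zero_or_pos (Pool.Agent.W307.RT.Cv 2 H).card with h0 | h0
      · rw [h0, Nat.cast_zero, div_zero]
        exact hε
      · rw [div_lt_iff₀ (by exact_mod_cast h0)]
        refine lt_of_le_of_lt h1 ?_
        have h3 : (0 : ℝ) < (Pool.Agent.W307.RT.Cv 2 H).card := by exact_mod_cast h0
        exact mul_lt_mul_of_pos_right (by linarith) h3
    · obtain ⟨C, hC⟩ := hZ2 (m * k)
      refine ⟨C, fun H => ?_⟩
      have h1 : Fam H \ Z =
          (((Pool.Agent.W307.RT.Cv 2 H).filter (fun c => c ∉ Z) : Finset (ℤ × ℤ)) :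
            Set (ℤ × ℤ)) := by
        rw [Fam_eq]
        ext c
        simp
      rw [h1, finsum_mem_coe_finset, Fam_ncard]
      have h2 := hC H
      refine le_trans ?_ h2
      have h3 : (Pool.Agent.W307.RT.Cv 2 H).filter (fun c => c ∉ Z) =
          (Pool.Agent.W307.RT.Cv 2 H).filter (fun c => c ∉ Z) := rfl
      refine le_trans (sum_le_sum (g := fun c : ℤ × ℤ =>
        ((Pool.Agent.W307.SE.SelR c.1 c.2).ncard : ℝ) ^ (m * k)) fun c hc => ?_) (le_of_eq ?_)
      · rw [mem_filter] at hc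
        have h4 := (curve hc.1 m).2.1
        rw [pow_mul]
        exact pow_le_pow_left₀ (Nat.cast_nonneg _) (by exact_mod_cast h4) k
      · refine sum_congr ?_ fun c _ => rfl
        ext c
        simp
  · simp only [upperDensity_eq]
    apply Pool.Agent.TH344.DT.tail_set Pool.Agent.TH344.DT.exc 1
    intro r H c hc hr
    rw [pow_one]
    exact (Nat.pow_le_pow_right (by norm_num) hr).trans (curve hc 0).2.2
  · simp only [upperDensity_eq]
    apply Pool.Agent.TH344.DT.tail_set Pool.Agent.TH344.DT.exc m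
    intro r H c hc hr
    refine le_trans hr (le_trans ?_ (curve hc m).2.1)
    exact Nat.le_mul_of_pos_left _ (by positivity)

end Pool.Agent.Results.MP_a43263_nt.ShaTails
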